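import Pool.Agent.L0h94.SP.StmB
import Pool.Agent.N498.PP.Lin

/-! Project SP, module CLIMB (helper61): linear algebra over the field with two elements. -/

set_option autoImplicit false
set_option linter.all false

open scoped Classical

namespace Pool.Agent.L0h61.SP.Climb

open Pool.Agent.L0h94.SP

/-- the polar form -/
noncomputable def bf (ι : Type) [Fintype ι] :
    LinearMap.BilinForm (ZMod 2) (ι → ZMod 2 × ZMod 2) :=
  LinearMap.mk₂ (ZMod 2) (fun v w => ∑ i, ((v i).1 * (w i).2 + (v i).2 * (w i).1))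
    (fun a b c => by
      rw [← Finset.sum_add_distrib]
      exact Finset.sum_congr rfl fun i _ => by simp; ring)
    (fun a b c => by
      rw [smul_eq_mul, Finset.mul_sum]
      exact Finset.sum_congr rfl fun i _ => by simp; ring)
    (fun a b c => by
      rw [← Finset.sum_add_distrib]
      exact Finset.sum_congr rfl fun i _ => by simp; ring)
    (fun a b c => by
      rw [smul_eq_mul, Finset.mul_sum]
      exact Finset.sum_congr rfl fun i _ => by simp; ring)

theorem bf_apply {ι : Type} [Fintype ι] (v w : ι → ZMod 2 × ZMod 2) :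
    bf ι v w = ∑ i, ((v i).1 * (w i).2 + (v i).2 * (w i).1) := rfl

theorem bf_comm {ι : Type} [Fintype ι] (v w : ι → ZMod 2 × ZMod 2) : bf ι v w = bf ι w v := by
  rw [bf_apply, bf_apply]
  exact Finset.sum_congr rfl fun i _ => by ring

theorem bf_nd (ι : Type) [Fintype ι] : (bf ι).Nondegenerate := by
  have h1 : ∀ v : ι → ZMod 2 × ZMod 2, (∀ w, bf ι v w = 0) → v = 0 := by
    intro v hv
    funext i
    have h1 := hv (Pi.single i (1, 0))
    have h2 := hv (Pi.single i (0, 1))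
    rw [bf_apply, Finset.sum_eq_single i (fun j _ hj => by simp [Pi.single_eq_of_ne hj])
      (by simp)] at h1 h2
    simp at h1 h2
    exact Prod.ext h2 h1
  exact ⟨h1, fun w hw => h1 w fun v => by rw [bf_comm]; exact hw v⟩

/-- the orthogonal complement -/
def perp {ι : Type} [Fintype ι] (L : AddSubgroup (ι → ZMod 2 × ZMod 2)) :
    AddSubgroup (ι → ZMod 2 × ZMod 2) where
  carrier := {v | ∀ x ∈ L, ∑ i, ((x i).1 * (v i).2 + (x i).2 * (v i).1) = 0}
  zero_mem' := fun x _ => by simp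
  add_mem' := fun {v w} hv hw x hx => by
    have h : ∑ i, ((x i).1 * ((v + w) i).2 + (x i).2 * ((v + w) i).1) =
        ∑ i, ((x i).1 * (v i).2 + (x i).2 * (v i).1) +
        ∑ i, ((x i).1 * (w i).2 + (x i).2 * (w i).1) := by
      rw [← Finset.sum_add_distrib]
      exact Finset.sum_congr rfl fun i _ => by simp; ring
    rw [h, hv x hx, hw x hx, add_zero]
  neg_mem' := fun {v} hv x hx => by
    have h : ∑ i, ((x i).1 * ((-v) i).2 + (x i).2 * ((-v) i).1) =
        ∑ i, ((x i).1 * (v i).2 + (x i).2 * (v i).1) := by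
      exact Finset.sum_congr rfl fun i _ => by simp
    rw [h]
    exact hv x hx

theorem card_perp {ι : Type} [Fintype ι] (L : AddSubgroup (ι → ZMod 2 × ZMod 2)) :
    Nat.card L * Nat.card (perp L) = 2 ^ (2 * Fintype.card ι) := by
  set W : Submodule (ZMod 2) (ι → ZMod 2 × ZMod 2) := AddSubgroup.toZModSubmodule 2 L with hW
  have h1 : Nat.card L = 2 ^ Module.finrank (ZMod 2) W := by
    have : Nat.card L = Nat.card W := rfl
    rw [this, Module.natCard_eq_pow_finrank (K := ZMod 2), Nat.card_zmod]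
  have h2 : Nat.card (perp L) = 2 ^ Module.finrank (ZMod 2) ((bf ι).orthogonal W) := by
    have : Nat.card (perp L) = Nat.card ((bf ι).orthogonal W) := rfl
    rw [this, Module.natCard_eq_pow_finrank (K := ZMod 2), Nat.card_zmod]
  rw [h1, h2, ← pow_add, LinearMap.BilinForm.finrank_orthogonal (bf_nd ι)]
  have h3 : Module.finrank (ZMod 2) (ι → ZMod 2 × ZMod 2) = 2 * Fintype.card ι := by
    rw [Module.finrank_pi_fintype]
    simp [mul_comm]
  have h4 : Module.finrank (ZMod 2) W ≤ Module.finrank (ZMod 2) (ι → ZMod 2 × ZMod 2) :=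
    Submodule.finrank_le _
  rw [Nat.add_sub_cancel' h4, h3]


/-! ### The subgroups -/

abbrev E := ℕ → ZMod 2 × ZMod 2

def Q (Y : Finset ℕ) (x : E) : ZMod 2 := ∑ q ∈ Y, (x q).1 * (x q).2

def B (Y : Finset ℕ) (x y : E) : ZMod 2 := ∑ q ∈ Y, ((x q).1 * (y q).2 + (x q).2 * (y q).1)

theorem Q_add (Y : Finset ℕ) (x y : E) : Q Y (x + y) = Q Y x + Q Y y + B Y x y := by
  unfold Q B
  rw [← Finset.sum_add_distrib, ← Finset.sum_add_distrib]
  exact Finset.sum_congr rfl fun i _ => by simp; ring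

def Lam (Λ : AddSubgroup E) (Y : Finset ℕ) : AddSubgroup E where
  carrier := {x | x ∈ Λ ∧ ∀ q, q ∉ Y → (x q).1 = 0}
  zero_mem' := ⟨Λ.zero_mem, fun q _ => rfl⟩
  add_mem' := fun {x y} hx hy => ⟨Λ.add_mem hx.1 hy.1, fun q hq => by
    rw [Pi.add_apply, Prod.fst_add, hx.2 q hq, hy.2 q hq, add_zero]⟩
  neg_mem' := fun {x} hx => ⟨Λ.neg_mem hx.1, fun q hq => by
    rw [Pi.neg_apply, Prod.fst_neg, hx.2 q hq, neg_zero]⟩

theorem mem_Lam {Λ : AddSubgroup E} {Y : Finset ℕ} {x : E} :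
    x ∈ Lam Λ Y ↔ x ∈ Λ ∧ ∀ q, q ∉ Y → (x q).1 = 0 := Iff.rfl

def WJ (Λ : AddSubgroup E) (J : Finset ℕ) : AddSubgroup E where
  carrier := {x | x ∈ Λ ∧ InW J x}
  zero_mem' := ⟨Λ.zero_mem, fun q _ => rfl, fun q _ => rfl⟩
  add_mem' := fun {x y} hx hy => ⟨Λ.add_mem hx.1 hy.1, fun q hq => by
    rw [Pi.add_apply, Prod.snd_add, hx.2.1 q hq, hy.2.1 q hq, add_zero], fun q hq => by
    rw [Pi.add_apply, Prod.fst_add, hx.2.2 q hq, hy.2.2 q hq, add_zero]⟩
  neg_mem' := fun {x} hx => ⟨Λ.neg_mem hx.1, fun q hq => by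
    rw [Pi.neg_apply, Prod.snd_neg, hx.2.1 q hq, neg_zero], fun q hq => by
    rw [Pi.neg_apply, Prod.fst_neg, hx.2.2 q hq, neg_zero]⟩

theorem mem_WJ {Λ : AddSubgroup E} {J : Finset ℕ} {x : E} :
    x ∈ WJ Λ J ↔ x ∈ Λ ∧ InW J x := Iff.rfl

/-- restriction -/
def res (Y : Finset ℕ) : E →+ (Y → ZMod 2 × ZMod 2) where
  toFun x := fun q => x q
  map_zero' := rfl
  map_add' _ _ := rfl

theorem res_apply (Y : Finset ℕ) (x : E) (q : Y) : res Y x q = x q := rfl

section basic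

variable {Λ : AddSubgroup E} {U : Finset ℕ} (hU : ∀ x ∈ Λ, ∀ q, q ∉ U → x q = 0)

include hU

theorem inj_res {G : AddSubgroup E} (hG : G ≤ Λ) :
    Function.Injective ((res U).comp G.subtype) := by
  rw [injective_iff_map_eq_zero]
  intro x hx
  apply Subtype.ext
  funext q
  by_cases hq : q ∈ U
  · exact congrFun hx ⟨q, hq⟩
  · exact hU _ (hG x.2) q hq

theorem finG {G : AddSubgroup E} (hG : G ≤ Λ) : Finite G :=
  Finite.of_injective _ (inj_res hU hG)

theorem card_dvd {G : AddSubgroup E} (hG : G ≤ Λ) : Nat.card G ∣ 2 ^ (2 * U.card) := by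
  have h := AddSubgroup.card_dvd_of_injective _ (inj_res hU hG)
  have h2 : Nat.card (U → ZMod 2 × ZMod 2) = 2 ^ (2 * U.card) := by
    rw [Nat.card_pi, Finset.prod_const, Nat.card_prod, Nat.card_zmod, Finset.card_univ,
      Fintype.card_coe, pow_mul]
    norm_num
  rwa [h2] at h

theorem window {Y Y' : Finset ℕ} (hY : Y ⊆ Y') :
    (∀ q ∈ Y' \ Y, ∃ z ∈ Lam Λ Y', (z q).1 = 1 ∧ ∀ q' ∈ Y' \ Y, q' ≠ q → (z q').1 = 0) ∨
    2 * Nat.card (Lam Λ Y') ≤ Nat.card (Lam Λ Y) * 2 ^ (Y' \ Y).card := by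
  set ρ : Lam Λ Y' →+ (↥(Y' \ Y) → ZMod 2) :=
    { toFun := fun x q => (x.1 q).1, map_zero' := rfl, map_add' := fun _ _ => rfl } with hρ
  by_cases hs : Function.Surjective ρ
  · left
    intro q hq
    obtain ⟨z, hz⟩ := hs (Pi.single ⟨q, hq⟩ 1)
    refine ⟨z.1, z.2, ?_, ?_⟩
    · have := congrFun hz ⟨q, hq⟩
      rw [Pi.single_eq_same] at this
      exact this
    · intro q' hq' hne
      have := congrFun hz ⟨q', hq'⟩
      rw [Pi.single_eq_of_ne (by simpa using hne)] at this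
      exact this
  · right
    haveI : Finite (Lam Λ Y') := finG hU fun x hx => hx.1
    haveI : Finite (Lam Λ Y) := finG hU fun x hx => hx.1
    have h1 : Nat.card (Lam Λ Y') = Nat.card ρ.range * Nat.card ρ.ker := by
      rw [AddSubgroup.card_eq_card_quotient_mul_card_addSubgroup ρ.ker,
        Nat.card_congr (QuotientAddGroup.quotientKerEquivRange ρ).toEquiv]
    have h2 : Nat.card ρ.ker ≤ Nat.card (Lam Λ Y) := by
      refine Nat.card_le_card_of_injective (fun x : ρ.ker => (⟨x.1.1, x.1.2.1, fun q hq => ?_⟩ :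
        Lam Λ Y)) fun x y hxy => ?_
      · by_cases hq' : q ∈ Y'
        · have := x.2
          rw [AddMonoidHom.mem_ker] at this
          exact congrFun this ⟨q, Finset.mem_sdiff.2 ⟨hq', hq⟩⟩
        · exact x.1.2.2 q hq'
      · exact Subtype.ext (Subtype.ext (congrArg (fun z : Lam Λ Y => z.1) hxy))
    have h3 : 2 * Nat.card ρ.range ≤ 2 ^ (Y' \ Y).card := by
      have e1 : Nat.card (↥(Y' \ Y) → ZMod 2) = 2 ^ (Y' \ Y).card := by
        rw [Nat.card_pi, Finset.prod_const, Nat.card_zmod, Finset.card_univ, Fintype.card_coe]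
      have e2 := AddSubgroup.card_eq_card_quotient_mul_card_addSubgroup ρ.range
      rw [e1] at e2
      have e3 : Nat.card ((↥(Y' \ Y) → ZMod 2) ⧸ ρ.range) ≠ 0 := by
        intro h0
        rw [h0, zero_mul] at e2
        exact absurd e2 (by positivity)
      have e4 : Nat.card ((↥(Y' \ Y) → ZMod 2) ⧸ ρ.range) ≠ 1 := by
        intro h1
        have : ρ.range = ⊤ := AddSubgroup.index_eq_one.1 h1
        exact hs (AddMonoidHom.range_eq_top.1 this)
      rw [e2]
      exact Nat.mul_le_mul_right _ (by omega)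
    calc 2 * Nat.card (Lam Λ Y') = (2 * Nat.card ρ.range) * Nat.card ρ.ker := by rw [h1]; ring
      _ ≤ 2 ^ (Y' \ Y).card * Nat.card (Lam Λ Y) := Nat.mul_le_mul h3 h2
      _ = _ := mul_comm _ _

variable (hQ : ∀ x ∈ Λ, Q U x = 0)

include hQ

theorem B_zero {x y : E} (hx : x ∈ Λ) (hy : y ∈ Λ) : B U x y = 0 := by
  have h := hQ _ (Λ.add_mem hx hy)
  rw [Q_add, hQ x hx, hQ y hy, zero_add, zero_add] at h
  exact h

omit hQ in
theorem B_restrict {Y : Finset ℕ} (hY : Y ⊆ U) {x y : E} (hx : ∀ q, q ∉ Y → (x q).1 = 0)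
    (hy : ∀ q, q ∉ Y → (y q).1 = 0) : B U x y = B Y x y := by
  unfold B
  refine (Finset.sum_subset hY fun q _ hq => ?_).symm
  rw [hx q hq, hy q hq]
  simp

variable {T0 Y : Finset ℕ} (hT : ∀ x ∈ Λ, (∀ q, (x q).1 = 0) → (∀ q ∈ T0, (x q).2 = 0) → x = 0)
  (hY0 : T0 ⊆ Y) (hYU : Y ⊆ U)

/-- the image -/
def im (Λ : AddSubgroup E) (Y : Finset ℕ) : AddSubgroup (Y → ZMod 2 × ZMod 2) :=
  ((res Y).comp (Lam Λ Y).subtype).range

include hT hY0 hYU

omit hU hQ hYU in
theorem card_im : Nat.card (im Λ Y) = Nat.card (Lam Λ Y) := by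
  have hinj : Function.Injective ((res Y).comp (Lam Λ Y).subtype) := by
    rw [injective_iff_map_eq_zero]
    intro x hx
    apply Subtype.ext
    refine hT x.1 x.2.1 (fun q => ?_) fun q hq => ?_
    · by_cases hq : q ∈ Y
      · exact congrArg Prod.fst (congrFun hx ⟨q, hq⟩)
      · exact x.2.2 q hq
    · exact congrArg Prod.snd (congrFun hx ⟨q, hY0 hq⟩)
  exact (Nat.card_congr (AddMonoidHom.ofInjective hinj).toEquiv).symm

omit hT hY0 in
theorem im_le : im Λ Y ≤ perp (im Λ Y) := by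
  rintro v ⟨x, rfl⟩ w ⟨y, rfl⟩
  have h1 : B Y y.1 x.1 = 0 := by
    rw [← B_restrict hU hYU y.2.2 x.2.2]
    exact B_zero hU hQ y.2.1 x.2.1
  unfold B at h1
  rw [← Finset.sum_coe_sort] at h1
  exact h1

theorem card_le : Nat.card (Lam Λ Y) ≤ 2 ^ Y.card := by
  have h1 := card_perp (im Λ Y)
  have h2 : Nat.card (im Λ Y) ≤ Nat.card (perp (im Λ Y)) :=
    Nat.card_le_card_of_injective (AddSubgroup.inclusion (im_le hU hQ hYU))
      (AddSubgroup.inclusion_injective _)
  rw [card_im hT hY0] at h1 h2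
  rw [Fintype.card_coe, mul_comm 2, pow_mul, sq] at h1
  by_contra hlt
  push Not at hlt
  have := Nat.mul_lt_mul_of_lt_of_le hlt (hlt.le.trans h2)
    (lt_of_lt_of_le (by positivity : 0 < 2 ^ Y.card) (hlt.le.trans h2))
  rw [h1] at this
  exact lt_irrefl _ this

theorem pigeon {c0 a m : ℕ} (hc : 2 ^ Y.card ≤ c0 * Nat.card (Lam Λ Y)) (hm : c0 ^ 2 * a < m)
    (v : ℕ → (Y → ZMod 2 × ZMod 2)) (hv : ∀ j < m, v j ∈ perp (im Λ Y)) :
    ∃ C ⊆ Finset.range m, a < C.card ∧ ∀ j ∈ C, ∀ j' ∈ C, v j + v j' ∈ im Λ Y := by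
  set L := im Λ Y with hL
  have hle : L ≤ perp L := im_le hU hQ hYU
  have h1 := card_perp L
  have h2 := AddSubgroup.card_eq_card_quotient_mul_card_addSubgroup (L.addSubgroupOf (perp L))
  have h3 : Nat.card (L.addSubgroupOf (perp L)) = Nat.card L :=
    Nat.card_congr (AddSubgroup.addSubgroupOfEquivOfLe hle).toEquiv
  rw [h3] at h2
  have h4 : Nat.card L = Nat.card (Lam Λ Y) := card_im hT hY0
  haveI : Finite (Lam Λ Y) := finG hU fun x hx => hx.1
  have hpos : 0 < Nat.card L := by rw [h4]; exact Nat.card_pos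
  have h5 : Nat.card (perp L ⧸ L.addSubgroupOf (perp L)) ≤ c0 ^ 2 := by
    have h6 : Nat.card (perp L ⧸ L.addSubgroupOf (perp L)) * (Nat.card L) ^ 2 ≤
        c0 ^ 2 * (Nat.card L) ^ 2 := by
      calc _ = Nat.card L * Nat.card (perp L) := by rw [h2]; ring
        _ = (2 ^ Y.card) ^ 2 := by rw [h1, Fintype.card_coe]; ring
        _ ≤ (c0 * Nat.card L) ^ 2 := by
            rw [h4]; exact Nat.pow_le_pow_left hc 2
        _ = _ := by ring
    exact Nat.le_of_mul_le_mul_right h6 (by positivity)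
  haveI : Finite (perp L ⧸ L.addSubgroupOf (perp L)) := Quotient.finite _
  letI := Fintype.ofFinite (perp L ⧸ L.addSubgroupOf (perp L))
  set f : ℕ → (perp L ⧸ L.addSubgroupOf (perp L)) := fun j =>
    if h : j < m then QuotientAddGroup.mk ⟨v j, hv j h⟩ else 0 with hf
  obtain ⟨y, _, hy⟩ := Finset.exists_lt_card_fiber_of_mul_lt_card_of_maps_to
    (s := Finset.range m) (t := (Finset.univ : Finset (perp L ⧸ L.addSubgroupOf (perp L))))
    (f := f) (n := a) (fun _ _ => Finset.mem_univ _) (by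
      rw [Finset.card_range, Finset.card_univ, ← Nat.card_eq_fintype_card]
      exact lt_of_le_of_lt (Nat.mul_le_mul_right _ h5) hm)
  refine ⟨_, Finset.filter_subset _ _, hy, ?_⟩
  intro j hj j' hj'
  rw [Finset.mem_filter, Finset.mem_range] at hj hj'
  have e := hj.2.trans hj'.2.symm
  simp only [hf, dif_pos hj.1, dif_pos hj'.1] at e
  rw [QuotientAddGroup.eq, AddSubgroup.mem_addSubgroupOf] at e
  have e2 : ((-(⟨v j, hv j hj.1⟩ : perp L) + ⟨v j', hv j' hj'.1⟩ : perp L) :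
      Y → ZMod 2 × ZMod 2) = v j + v j' := by
    have : ∀ p q : ZMod 2 × ZMod 2, -p + q = p + q := by decide
    funext i
    exact this _ _
  rwa [e2] at e

end basic

/-! ### The climbing step -/

theorem sup_mono {T : ℕ → Finset ℕ} {i j : ℕ} (h : i ≤ j) : sup T i ⊆ sup T j :=
  Finset.biUnion_subset_biUnion_of_subset_left _ (Finset.range_subset_range.2 h)

theorem mem_sup {T : ℕ → Finset ℕ} {i q : ℕ} : q ∈ sup T i ↔ ∃ j < i, q ∈ T j := by
  simp [sup]

theorem zt (x : ZMod 2) : x + x = 0 := CharTwo.add_self_eq_zero x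

theorem climb {Λ : AddSubgroup E} {T : ℕ → Finset ℕ} {M c0 a m i : ℕ}
    (hdis : ∀ i < M, ∀ j < M, i ≠ j → Disjoint (T i) (T j))
    (hU : ∀ x ∈ Λ, ∀ q, q ∉ sup T M → x q = 0)
    (hQ : ∀ x ∈ Λ, Q (sup T M) x = 0)
    (hlow : ∀ Y ⊆ sup T M, 2 ^ Y.card ≤ c0 * Nat.card (Lam Λ Y))
    (hT : ∀ x ∈ Λ, (∀ q, (x q).1 = 0) → (∀ q ∈ T 0, (x q).2 = 0) → x = 0)
    (hreal : ∀ i, 0 < i → i < M → ∀ φ : Λ →+ ZMod 2, ∃ q ∈ T i, ∀ x : Λ,
      x.1 ∈ Lam Λ (sup T i) → (x.1 q).2 = φ x)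
    (hi : 0 < i) (hiM : i + m ≤ M) (hm : c0 ^ 2 * a < m)
    (hwin : ∀ q ∈ sup T (i + m) \ sup T i, ∃ z ∈ Lam Λ (sup T (i + m)), (z q).1 = 1 ∧
      ∀ q' ∈ sup T (i + m) \ sup T i, q' ≠ q → (z q').1 = 0) :
    ∃ J ⊆ sup T M, 2 ^ a ≤ Nat.card (WJ Λ J) := by
  set Y := sup T i with hY
  -- the elements `z`
  have hz0 : ∃ z : ℕ → E, ∀ q ∈ sup T (i + m) \ Y, z q ∈ Lam Λ (sup T (i + m)) ∧
      (z q q).1 = 1 ∧ ∀ q' ∉ Y, q' ≠ q → (z q q').1 = 0 := by
    have h1 : ∀ q, ∃ z : E, q ∈ sup T (i + m) \ Y → z ∈ Lam Λ (sup T (i + m)) ∧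
      (z q).1 = 1 ∧ ∀ q' ∉ Y, q' ≠ q → (z q').1 = 0 := by
      intro q
      by_cases hq : q ∈ sup T (i + m) \ Y
      · obtain ⟨z, hz1, hz2, hz3⟩ := hwin q hq
        refine ⟨z, fun _ => ⟨hz1, hz2, fun q' hq' hne => ?_⟩⟩
        by_cases hq'' : q' ∈ sup T (i + m)
        · exact hz3 q' (Finset.mem_sdiff.2 ⟨hq'', hq'⟩) hne
        · exact hz1.2 q' hq''
      · exact ⟨0, fun h => absurd h hq⟩
    choose z hz using h1
    exact ⟨z, hz⟩
  obtain ⟨z, hz⟩ := hz0
  -- the points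
  have hseq : ∀ m' ≤ m, ∃ qs : ℕ → ℕ, ∀ j < m', qs j ∈ T (i + j) ∧
      ∀ x ∈ Lam Λ (sup T (i + j)), (x (qs j)).2 =
        ∑ l ∈ Finset.range j, (x (qs l)).1 * Q Y (z (qs l)) := by
    intro m'
    induction m' with
    | zero => exact fun _ => ⟨fun _ => 0, fun j hj => absurd hj (Nat.not_lt_zero _)⟩
    | succ m' ih =>
      intro hm'
      obtain ⟨qs, hqs⟩ := ih (by omega)
      obtain ⟨q, hq1, hq2⟩ := hreal (i + m') (by omega) (by omega)
        { toFun := fun x => ∑ l ∈ Finset.range m', (x.1 (qs l)).1 * Q Y (z (qs l))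
          map_zero' := Finset.sum_eq_zero fun l _ => by simp
          map_add' := fun x y => by
            rw [← Finset.sum_add_distrib]
            exact Finset.sum_congr rfl fun l _ => by simp; ring }
      refine ⟨Function.update qs m' q, fun j hj => ?_⟩
      have hne : ∀ l < m', Function.update qs m' q l = qs l := fun l hl =>
        Function.update_of_ne (by omega) _ _
      rcases Nat.lt_succ_iff_lt_or_eq.1 hj with hj | rfl
      · rw [hne j hj]
        refine ⟨(hqs j hj).1, fun x hx => ?_⟩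
        rw [(hqs j hj).2 x hx]
        exact Finset.sum_congr rfl fun l hl => by
          rw [hne l (by rw [Finset.mem_range] at hl; omega)]
      · rw [Function.update_self]
        refine ⟨hq1, fun x hx => ?_⟩
        rw [hq2 ⟨x, hx.1⟩ hx]
        have e : ∑ l ∈ Finset.range j, (x (qs l)).1 * Q Y (z (qs l)) =
            ∑ l ∈ Finset.range j, (x (Function.update qs j q l)).1 *
              Q Y (z (Function.update qs j q l)) := Finset.sum_congr rfl fun l hl => by
          rw [hne l (by rw [Finset.mem_range] at hl; omega)]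
        exact e
  obtain ⟨qs, hqs⟩ := hseq m le_rfl
  have hYU : Y ⊆ sup T M := sup_mono (by omega)
  have hqY : ∀ j < m, qs j ∉ Y := by
    intro j hj h
    obtain ⟨i', hi', h'⟩ := mem_sup.1 h
    exact Finset.disjoint_left.1 (hdis i' (by omega) (i + j) (by omega) (by omega)) h'
      (hqs j hj).1
  have hq' : ∀ j < m, qs j ∈ sup T (i + m) \ Y := fun j hj =>
    Finset.mem_sdiff.2 ⟨mem_sup.2 ⟨i + j, by omega, (hqs j hj).1⟩, hqY j hj⟩
  have hqU : ∀ j < m, qs j ∈ sup T M := fun j hj => mem_sup.2 ⟨i + j, by omega, (hqs j hj).1⟩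
  have hqne : ∀ j < m, ∀ l < m, j ≠ l → qs j ≠ qs l := by
    intro j hj l hl hne h
    refine Finset.disjoint_left.1 (hdis (i + j) (by omega) (i + l) (by omega) (by omega))
      (hqs j hj).1 ?_
    rw [h]
    exact (hqs l hl).1
  set w : ℕ → E := fun j => z (qs j) with hw
  have w1 : ∀ j < m, w j ∈ Λ := fun j hj => (hz _ (hq' j hj)).1.1
  have w2 : ∀ j < m, (w j (qs j)).1 = 1 := fun j hj => (hz _ (hq' j hj)).2.1
  have w3 : ∀ j < m, ∀ q ∉ Y, q ≠ qs j → (w j q).1 = 0 := fun j hj => (hz _ (hq' j hj)).2.2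
  -- unramified functional values
  have u1 : ∀ j < m, ∀ x ∈ Lam Λ Y, (x (qs j)).2 = 0 := by
    intro j hj x hx
    rw [(hqs j hj).2 x ⟨hx.1, fun q hq => hx.2 q fun h => hq (sup_mono (by omega) h)⟩]
    exact Finset.sum_eq_zero fun l hl => by
      rw [hx.2 _ (hqY l (by rw [Finset.mem_range] at hl; omega)), zero_mul]
  have u2 : ∀ j < m, ∀ l < j, (w l (qs j)).2 = Q Y (w l) := by
    intro j hj l hl
    have hl' : l < m := by omega
    rw [(hqs j hj).2 (w l) ⟨w1 l hl', fun q hq => w3 l hl' q (fun h => hq (sup_mono (by omega) h))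
      (fun h => hq (h ▸ mem_sup.2 ⟨i + l, by omega, (hqs l hl').1⟩))⟩]
    rw [Finset.sum_eq_single l]
    · rw [w2 l hl', one_mul]
    · intro l' hl1 hne
      rw [Finset.mem_range] at hl1
      rw [w3 l hl' _ (hqY l' (by omega)) (hqne l' (by omega) l hl' hne), zero_mul]
    · intro h
      exact absurd (Finset.mem_range.2 hl) h
  -- sums over all points
  have s1 : ∀ j < m, ∀ x : E, (∀ q ∉ Y, q ≠ qs j → (x q).1 = 0) → ∀ y : E,
      (∀ q ∉ Y, q ≠ qs j → (y q).1 = 0) → B (sup T M) x y =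
      B Y x y + ((x (qs j)).1 * (y (qs j)).2 + (x (qs j)).2 * (y (qs j)).1) := by
    intro j hj x hx y hy
    unfold B
    have hsub : insert (qs j) Y ⊆ sup T M := Finset.insert_subset (hqU j hj) hYU
    rw [← Finset.sum_subset hsub, Finset.sum_insert (hqY j hj), add_comm]
    intro q _ hq
    rw [Finset.mem_insert, not_or] at hq
    rw [hx q hq.2 hq.1, hy q hq.2 hq.1]
    simp
  have s2 : ∀ j < m, Q (sup T M) (w j) = Q Y (w j) + (w j (qs j)).1 * (w j (qs j)).2 := by
    intro j hj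
    unfold Q
    have hsub : insert (qs j) Y ⊆ sup T M := Finset.insert_subset (hqU j hj) hYU
    rw [← Finset.sum_subset hsub, Finset.sum_insert (hqY j hj), add_comm]
    intro q _ hq
    rw [Finset.mem_insert, not_or] at hq
    rw [w3 j hj q hq.2 hq.1, zero_mul]
  have u3 : ∀ j < m, (w j (qs j)).2 = Q Y (w j) := by
    intro j hj
    have h := s2 j hj
    rw [hQ _ (w1 j hj), w2 j hj, one_mul] at h
    have key : ∀ p q : ZMod 2, 0 = p + q → q = p := by decide
    exact key _ _ h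
  have s3 : ∀ j < m, ∀ l < j, B Y (w j) (w l) + ((w j (qs l)).2 + (w l (qs j)).2) = 0 := by
    intro j hj l hl
    have hl' : l < m := by omega
    have h := B_zero hU hQ (w1 j hj) (w1 l hl')
    unfold B at h ⊢
    have hsub : insert (qs j) (insert (qs l) Y) ⊆ sup T M :=
      Finset.insert_subset (hqU j hj) (Finset.insert_subset (hqU l hl') hYU)
    have hnj : qs j ∉ insert (qs l) Y := by
      rw [Finset.mem_insert, not_or]
      exact ⟨hqne j hj l hl' (by omega), hqY j hj⟩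
    rw [← Finset.sum_subset hsub, Finset.sum_insert hnj, Finset.sum_insert (hqY l hl'),
      w2 j hj, w2 l hl', w3 l hl' (qs j) (hqY j hj) (hqne j hj l hl' (by omega)),
      w3 j hj (qs l) (hqY l hl') (hqne l hl' j hj (by omega))] at h
    · rw [← h]
      ring
    · intro q _ hq
      rw [Finset.mem_insert, not_or, Finset.mem_insert, not_or] at hq
      rw [w3 j hj q hq.2.2 hq.1, w3 l hl' q hq.2.2 hq.2.1]
      simp
  have s4 : ∀ j < m, ∀ x ∈ Lam Λ Y, B Y x (w j) = 0 := by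
    intro j hj x hx
    have h := B_zero hU hQ hx.1 (w1 j hj)
    rw [s1 j hj x (fun q hq _ => hx.2 q hq) (w j) (w3 j hj), hx.2 _ (hqY j hj), u1 j hj x hx] at h
    simpa using h
  -- the pigeonhole principle
  obtain ⟨C, hC1, hC2, hC3⟩ := pigeon hU hQ (T0 := T 0) (Y := Y) hT
    (fun q hq => mem_sup.2 ⟨0, hi, hq⟩) hYU (hlow Y hYU) hm (fun j => res Y (w j)) (by
      rintro j hj v ⟨x, rfl⟩
      have h := s4 j hj x.1 x.2
      unfold B at h
      rw [← Finset.sum_coe_sort] at h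
      exact h)
  have hCm : ∀ j ∈ C, j < m := fun j hj => Finset.mem_range.1 (hC1 hj)
  have hlam : ∀ j ∈ C, ∀ j' ∈ C, ∃ l ∈ Lam Λ Y, ∀ q ∈ Y, l q = w j q + w j' q := by
    intro j hj j' hj'
    obtain ⟨x, hx⟩ := hC3 j hj j' hj'
    exact ⟨x.1, x.2, fun q hq => congrFun hx ⟨q, hq⟩⟩
  have hQY0 : ∀ l ∈ Lam Λ Y, Q Y l = 0 := by
    intro l hl
    rw [← hQ l hl.1]
    unfold Q
    exact Finset.sum_subset hYU fun q _ hq => by rw [hl.2 q hq, zero_mul]
  have BY : ∀ x y : E, B Y x y = B Y y x := by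
    intro x y
    unfold B
    exact Finset.sum_congr rfl fun q _ => by ring
  have hBd : ∀ j ∈ C, ∀ l ∈ C, B Y (w j) (w l) = 0 ∧ Q Y (w j) = Q Y (w l) := by
    intro j hj l hl
    obtain ⟨x, hx, hx2⟩ := hlam j hj l hl
    have e1 : B Y (w j) (w l) = B Y x (w l) := by
      unfold B
      have key : ∀ a1 a2 b1 b2 : ZMod 2, a1 * b2 + a2 * b1 =
        (a1 + b1) * b2 + (a2 + b2) * b1 := by decide
      refine Finset.sum_congr rfl fun q hq => ?_
      rw [hx2 q hq]
      exact key _ _ _ _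
    have e2 : Q Y (w l) = Q Y (w j + x) := by
      unfold Q
      have key : ∀ p r : ZMod 2 × ZMod 2, r = p + (p + r) := by decide
      refine Finset.sum_congr rfl fun q hq => ?_
      rw [Pi.add_apply, hx2 q hq, ← key]
    rw [Q_add, hQY0 x hx, BY, s4 j (hCm j hj) x hx, add_zero, add_zero] at e2
    exact ⟨e1.trans (s4 l (hCm l hl) x hx), e2.symm⟩
  have hval : ∀ j ∈ C, ∀ l ∈ C, (w j (qs l)).2 = Q Y (w j) := by
    intro j hj l hl
    rcases lt_trichotomy j l with h | rfl | h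
    · exact u2 l (hCm l hl) j h
    · exact u3 j (hCm j hj)
    · have h3 := s3 j (hCm j hj) l h
      rw [(hBd j hj l hl).1, zero_add, u2 j (hCm j hj) l h, (hBd l hl j hj).2] at h3
      have key : ∀ p q : ZMod 2, p + q = 0 → p = q := by decide
      exact key _ _ h3
  -- the subset
  obtain ⟨j0, hj0⟩ : C.Nonempty := Finset.card_pos.1 (by omega)
  choose! lam hlam1 hlam2 using hlam
  set y : ℕ → E := fun j => w j + w j0 + lam j j0 with hy
  set J := C.image qs with hJ
  have y1 : ∀ j ∈ C, y j ∈ WJ Λ J := by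
    intro j hj
    refine ⟨Λ.add_mem (Λ.add_mem (w1 j (hCm j hj)) (w1 j0 (hCm j0 hj0))) (hlam1 j hj j0 hj0).1,
      fun q hq => ?_, fun q hq => ?_⟩
    · obtain ⟨l, hl, rfl⟩ := Finset.mem_image.1 hq
      change (w j (qs l)).2 + (w j0 (qs l)).2 + (lam j j0 (qs l)).2 = 0
      rw [hval j hj l hl, hval j0 hj0 l hl, u1 l (hCm l hl) _ (hlam1 j hj j0 hj0),
        (hBd j hj j0 hj0).2, add_zero, zt]
    · change (w j q).1 + (w j0 q).1 + (lam j j0 q).1 = 0
      by_cases hqY' : q ∈ Y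
      · rw [hlam2 j hj j0 hj0 q hqY', Prod.fst_add, zt]
      · have hne : ∀ l ∈ C, q ≠ qs l := fun l hl h => hq (h ▸ Finset.mem_image_of_mem _ hl)
        rw [w3 j (hCm j hj) q hqY' (hne j hj), w3 j0 (hCm j0 hj0) q hqY' (hne j0 hj0),
          (hlam1 j hj j0 hj0).2 q hqY', add_zero, add_zero]
  have y2 : ∀ j ∈ C, j ≠ j0 → ∀ l ∈ C, l ≠ j0 → (y j (qs l)).1 = if l = j then 1 else 0 := by
    intro j hj hne l hl hlne
    change (w j (qs l)).1 + (w j0 (qs l)).1 + (lam j j0 (qs l)).1 = _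
    rw [w3 j0 (hCm j0 hj0) _ (hqY l (hCm l hl)) (hqne l (hCm l hl) j0 (hCm j0 hj0) hlne),
      (hlam1 j hj j0 hj0).2 _ (hqY l (hCm l hl)), add_zero, add_zero]
    by_cases h : l = j
    · rw [if_pos h, h, w2 j (hCm j hj)]
    · rw [if_neg h, w3 j (hCm j hj) _ (hqY l (hCm l hl)) (hqne l (hCm l hl) j (hCm j hj) h)]
  refine ⟨J, fun q hq => ?_, ?_⟩
  · obtain ⟨l, hl, rfl⟩ := Finset.mem_image.1 hq
    exact hqU l (hCm l hl)
  · haveI : Finite (WJ Λ J) := finG hU fun x hx => hx.1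
    have hinj : Function.Injective (fun S : (C.erase j0).powerset =>
        (⟨∑ j ∈ S.1, y j, AddSubgroup.sum_mem _ fun j hj =>
          y1 j (Finset.mem_of_mem_erase (Finset.mem_powerset.1 S.2 hj))⟩ : WJ Λ J)) := by
      intro S S' h
      have h' := congrArg (fun x : WJ Λ J => x.1) h
      simp only at h'
      have hev : ∀ S : (C.erase j0).powerset, ∀ l ∈ C.erase j0,
          ((∑ j ∈ S.1, y j) (qs l)).1 = if l ∈ S.1 then 1 else 0 := by
        intro S l hl
        rw [Finset.sum_apply, Prod.fst_sum]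
        rw [Finset.sum_congr rfl fun j hj => y2 j
          (Finset.mem_of_mem_erase (Finset.mem_powerset.1 S.2 hj))
          (Finset.ne_of_mem_erase (Finset.mem_powerset.1 S.2 hj)) l
          (Finset.mem_of_mem_erase hl) (Finset.ne_of_mem_erase hl), Finset.sum_ite_eq]
      apply Subtype.ext
      ext l
      have hS := Finset.mem_powerset.1 S.2
      have hS' := Finset.mem_powerset.1 S'.2
      constructor
      · intro hl
        have e1 := hev S l (hS hl)
        have e2 := hev S' l (hS hl)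
        rw [h', if_pos hl] at e1
        by_contra hl'
        rw [e1, if_neg hl'] at e2
        exact one_ne_zero e2
      · intro hl
        have e1 := hev S' l (hS' hl)
        have e2 := hev S l (hS' hl)
        rw [← h', if_pos hl] at e1
        by_contra hl'
        rw [e1, if_neg hl'] at e2
        exact one_ne_zero e2
    have h1 := Nat.card_le_card_of_injective _ hinj
    rw [Nat.card_eq_fintype_card, Fintype.card_coe, Finset.card_powerset,
      Finset.card_erase_of_mem hj0] at h1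
    exact (Nat.pow_le_pow_right (by norm_num) (by omega)).trans h1

/-! ### Intermediate values -/

theorem iv_up {F : Finset ℕ → ℕ} {a : ℕ} (hpow : ∀ J, ∃ k, F J = 2 ^ k)
    (h1 : ∀ J q, F (insert q J) ≤ 2 * F J) (h0 : F ∅ ≤ 2 ^ a) (J1 : Finset ℕ) :
    2 ^ a ≤ F J1 → ∃ J ⊆ J1, F J = 2 ^ a := by
  induction J1 using Finset.induction_on with
  | empty => exact fun h => ⟨∅, Finset.Subset.refl _, le_antisymm h0 h⟩
  | insert q s hq ih =>
    intro h
    by_cases hs : 2 ^ a ≤ F s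
    · obtain ⟨J, hJ, hJ2⟩ := ih hs
      exact ⟨J, hJ.trans (Finset.subset_insert _ _), hJ2⟩
    · refine ⟨_, Finset.Subset.refl _, le_antisymm ?_ h⟩
      obtain ⟨k, hk⟩ := hpow s
      rw [hk, not_le] at hs
      have hka : k < a := (Nat.pow_lt_pow_iff_right (by norm_num)).1 hs
      calc F (insert q s) ≤ 2 * F s := h1 s q
        _ = 2 ^ (k + 1) := by rw [hk]; ring
        _ ≤ 2 ^ a := Nat.pow_le_pow_right (by norm_num) hka

theorem iv_down {F : Finset ℕ → ℕ} {a : ℕ} (hpow : ∀ J, ∃ k, F J = 2 ^ k)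
    (h1 : ∀ J q, F J ≤ 2 * F (insert q J)) (h0 : 2 ^ a ≤ F ∅) (J1 : Finset ℕ) :
    F J1 ≤ 2 ^ a → ∃ J ⊆ J1, F J = 2 ^ a := by
  induction J1 using Finset.induction_on with
  | empty => exact fun h => ⟨∅, Finset.Subset.refl _, le_antisymm h h0⟩
  | insert q s hq ih =>
    intro h
    by_cases hs : F s ≤ 2 ^ a
    · obtain ⟨J, hJ, hJ2⟩ := ih hs
      exact ⟨J, hJ.trans (Finset.subset_insert _ _), hJ2⟩
    · refine ⟨_, Finset.Subset.refl _, le_antisymm h ?_⟩
      obtain ⟨k, hk⟩ := hpow s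
      rw [hk, not_le] at hs
      have hka : a < k := (Nat.pow_lt_pow_iff_right (by norm_num)).1 hs
      have h2 : 2 ^ (a + 1) ≤ 2 ^ k := Nat.pow_le_pow_right (by norm_num) hka
      have h3 := h1 s q
      rw [hk] at h3
      rw [pow_succ] at h2
      omega

section steps

variable {Λ : AddSubgroup E} {U : Finset ℕ} (hU : ∀ x ∈ Λ, ∀ q, q ∉ U → x q = 0)

include hU

/-- a subgroup of index at most two -/
theorem half {G H : AddSubgroup E} (hG : G ≤ Λ) (hH : H ≤ Λ) (φ : G →+ ZMod 2)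
    (h : ∀ x : G, φ x = 0 → x.1 ∈ H) : Nat.card G ≤ 2 * Nat.card H := by
  haveI : Finite G := finG hU hG
  haveI : Finite H := finG hU hH
  have h1 : Nat.card G = Nat.card φ.range * Nat.card φ.ker := by
    rw [AddSubgroup.card_eq_card_quotient_mul_card_addSubgroup φ.ker,
      Nat.card_congr (QuotientAddGroup.quotientKerEquivRange φ).toEquiv]
  have h2 : Nat.card φ.ker ≤ Nat.card H := by
    refine Nat.card_le_card_of_injective (fun x : φ.ker => (⟨x.1.1, h x.1 x.2⟩ : H))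
      fun x y hxy => ?_
    exact Subtype.ext (Subtype.ext (congrArg (fun z : H => z.1) hxy))
  have h3 : Nat.card φ.range ≤ 2 := by
    have := Nat.card_le_card_of_injective _ (AddSubgroup.subtype_injective φ.range)
    rwa [Nat.card_zmod] at this
  rw [h1]
  exact Nat.mul_le_mul h3 h2

theorem step_up (J : Finset ℕ) (q : ℕ) : Nat.card (WJ Λ (insert q J)) ≤ 2 * Nat.card (WJ Λ J) := by
  by_cases hq : q ∈ J
  · rw [Finset.insert_eq_of_mem hq]
    omega
  · refine half hU (fun x hx => hx.1) (fun x hx => hx.1)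
      { toFun := fun x => (x.1 q).1, map_zero' := rfl, map_add' := fun _ _ => rfl } ?_
    intro x hx
    refine ⟨x.2.1, fun q' hq' => x.2.2.1 q' (Finset.mem_insert_of_mem hq'), fun q' hq' => ?_⟩
    by_cases h : q' = q
    · rw [h]; exact hx
    · exact x.2.2.2 q' (by rw [Finset.mem_insert, not_or]; exact ⟨h, hq'⟩)

theorem step_down (J : Finset ℕ) (q : ℕ) :
    Nat.card (WJ Λ J) ≤ 2 * Nat.card (WJ Λ (insert q J)) := by
  by_cases hq : q ∈ J
  · rw [Finset.insert_eq_of_mem hq]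
    omega
  · refine half hU (fun x hx => hx.1) (fun x hx => hx.1)
      { toFun := fun x => (x.1 q).2, map_zero' := rfl, map_add' := fun _ _ => rfl } ?_
    intro x hx
    refine ⟨x.2.1, fun q' hq' => ?_, fun q' hq' => ?_⟩
    · rw [Finset.mem_insert] at hq'
      rcases hq' with rfl | hq'
      · exact hx
      · exact x.2.2.1 q' hq'
    · rw [Finset.mem_insert, not_or] at hq'
      exact x.2.2.2 q' hq'.2

theorem pow_card (J : Finset ℕ) : ∃ k, Nat.card (WJ Λ J) = 2 ^ k := by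
  obtain ⟨k, _, hk⟩ := (Nat.dvd_prime_pow Nat.prime_two).1
    (card_dvd hU (G := WJ Λ J) fun x hx => hx.1)
  exact ⟨k, hk⟩

theorem exists_zero (hQ : ∀ x ∈ Λ, Q U x = 0) : ∃ J ⊆ U, Nat.card (WJ Λ J) = 1 := by
  obtain ⟨J, hJ⟩ := Pool.Agent.N498.PP.lin U (Λ.map (res U)) (by
    rintro l ⟨x, hx, rfl⟩
    have h := hQ x hx
    unfold Q at h
    rw [← Finset.sum_coe_sort] at h
    exact h)
  refine ⟨U.filter fun q => ∃ h : q ∈ U, (⟨q, h⟩ : U) ∈ J, Finset.filter_subset _ _, ?_⟩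
  rw [AddSubgroup.card_eq_one, AddSubgroup.eq_bot_iff_forall]
  intro x hx
  have h := hJ (res U x) ⟨x, hx.1, rfl⟩ (fun i hi => hx.2.1 i (Finset.mem_filter.2
    ⟨i.2, i.2, hi⟩)) (fun i hi => hx.2.2 i fun h => by
      obtain ⟨_, _, h2⟩ := Finset.mem_filter.1 h
      exact hi h2)
  funext q
  by_cases hq : q ∈ U
  · exact congrFun h ⟨q, hq⟩
  · exact hU x hx.1 q hq

end steps

theorem t_CLIMB : S_CLIMB := by
  intro a c0
  set m := c0 ^ 2 * a + 1 with hm
  refine ⟨c0 * m + 1, by omega, ?_⟩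
  set M := c0 * m + 1 with hM
  intro T Λ hdis hU hQ hlow hT hreal
  have cardLam : ∀ Y : Finset ℕ, Nat.card {x : Λ // ∀ q, q ∉ Y → (x.1 q).1 = 0} =
      Nat.card (Lam Λ Y) := by
    intro Y
    refine Nat.card_congr ⟨fun x => ⟨x.1.1, x.1.2, x.2⟩, fun x => ⟨⟨x.1, x.2.1⟩, x.2.2⟩, ?_, ?_⟩
    · intro x; rfl
    · intro x; rfl
  have cardW : ∀ J : Finset ℕ, Nat.card {x : Λ // InW J x.1} = Nat.card (WJ Λ J) := by
    intro J
    refine Nat.card_congr ⟨fun x => ⟨x.1.1, x.1.2, x.2⟩, fun x => ⟨⟨x.1, x.2.1⟩, x.2.2⟩, ?_, ?_⟩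
    · intro x; rfl
    · intro x; rfl
  simp only [cardLam] at hlow
  simp only [cardW]
  have hreal' : ∀ i, 0 < i → i < M → ∀ φ : Λ →+ ZMod 2, ∃ q ∈ T i, ∀ x : Λ,
      x.1 ∈ Lam Λ (sup T i) → (x.1 q).2 = φ x := by
    intro i h0 hi φ
    obtain ⟨i, rfl⟩ := Nat.exists_eq_succ_of_ne_zero h0.ne'
    obtain ⟨q, hq, h⟩ := hreal i hi φ
    exact ⟨q, hq, fun x hx => h x hx.2⟩
  -- the window
  have hfin : ∀ Y, Finite (Lam Λ Y) := fun Y => finG hU fun x hx => hx.1
  have hwin : ∃ t < c0, ∀ q ∈ sup T (1 + t * m + m) \ sup T (1 + t * m),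
      ∃ z ∈ Lam Λ (sup T (1 + t * m + m)), (z q).1 = 1 ∧
      ∀ q' ∈ sup T (1 + t * m + m) \ sup T (1 + t * m), q' ≠ q → (z q').1 = 0 := by
    by_contra hcon
    push Not at hcon
    have h : ∀ t ≤ c0, Nat.card (Lam Λ (sup T (1 + t * m))) * 2 ^ t ≤
        2 ^ (sup T (1 + t * m)).card := by
      intro t
      induction t with
      | zero =>
        intro _
        rw [zero_mul, add_zero, pow_zero, mul_one]
        exact card_le hU hQ (T0 := T 0) hT (fun q hq => mem_sup.2 ⟨0, by omega, hq⟩)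
          (sup_mono (by omega))
      | succ t ih =>
        intro ht
        have ih' := ih (by omega)
        have e1 : 1 + (t + 1) * m = 1 + t * m + m := by ring
        rw [e1]
        have hsub : sup T (1 + t * m) ⊆ sup T (1 + t * m + m) := sup_mono (by omega)
        rcases window hU hsub with h1 | h1
        · obtain ⟨q, hq, h2⟩ := hcon t (by omega)
          obtain ⟨z, hz, hz1, hz2⟩ := h1 q hq
          obtain ⟨q', hq', hne, h3⟩ := h2 z hz hz1
          exact absurd (hz2 q' hq' hne) h3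
        · have e2 : (sup T (1 + t * m + m)).card = (sup T (1 + t * m + m) \
              sup T (1 + t * m)).card + (sup T (1 + t * m)).card :=
            (Finset.card_sdiff_add_card_eq_card hsub).symm
          rw [e2, pow_succ]
          calc _ = 2 * Nat.card (Lam Λ (sup T (1 + t * m + m))) * 2 ^ t := by ring
            _ ≤ Nat.card (Lam Λ (sup T (1 + t * m))) *
                2 ^ (sup T (1 + t * m + m) \ sup T (1 + t * m)).card * 2 ^ t :=
              Nat.mul_le_mul_right _ h1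
            _ = 2 ^ (sup T (1 + t * m + m) \ sup T (1 + t * m)).card *
                (Nat.card (Lam Λ (sup T (1 + t * m))) * 2 ^ t) := by ring
            _ ≤ _ := Nat.mul_le_mul_left _ ih'
            _ = _ := (pow_add _ _ _).symm
    have h1 := h c0 le_rfl
    have h2 := hlow (sup T (1 + c0 * m)) (sup_mono (by omega))
    haveI := hfin (sup T (1 + c0 * m))
    have h3 : 0 < Nat.card (Lam Λ (sup T (1 + c0 * m))) := Nat.card_pos
    have h4 : 2 ^ c0 * Nat.card (Lam Λ (sup T (1 + c0 * m))) ≤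
        c0 * Nat.card (Lam Λ (sup T (1 + c0 * m))) := by
      rw [mul_comm]
      exact h1.trans h2
    have h5 := Nat.le_of_mul_le_mul_right h4 h3
    exact absurd h5 (not_le.2 Nat.lt_two_pow_self)
  obtain ⟨t, ht, hwin⟩ := hwin
  have htm : 1 + t * m + m ≤ M := by
    have : (t + 1) * m ≤ c0 * m := Nat.mul_le_mul_right _ ht
    have e : (t + 1) * m = t * m + m := by ring
    omega
  obtain ⟨J1, hJ1, hJ1'⟩ := climb (a := a) (m := m) (i := 1 + t * m) (M := M) hdis hU hQ hlow hT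
    hreal' (by omega) htm (by omega) hwin
  obtain ⟨J0, hJ0, hJ0'⟩ := exists_zero hU hQ
  by_cases h0 : Nat.card (WJ Λ ∅) ≤ 2 ^ a
  · obtain ⟨J, hJ, hJ'⟩ := iv_up (F := fun J => Nat.card (WJ Λ J)) (pow_card hU) (step_up hU) h0
      J1 hJ1'
    exact ⟨J, hJ.trans hJ1, hJ'⟩
  · obtain ⟨J, hJ, hJ'⟩ := iv_down (F := fun J => Nat.card (WJ Λ J)) (pow_card hU) (step_down hU)
      (not_le.1 h0).le J0 (by rw [hJ0']; exact Nat.one_le_two_pow)
    exact ⟨J, hJ.trans hJ0, hJ'⟩

end Pool.Agent.L0h61.SP.Climb
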